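import Mathlib

/-!
# Flarbs: the amortized cost is not O(1)

We give, for every `n`, a sequence of `n` flarbs from the empty tree whose total number of
changed parent/child relationships is at least `n * log2 n / 4`.  Hence no absolute constant `C`
bounds the total cost of `n` flarbs by `C * n` (and the known upper bound `O(n log n)` is tight).

The sequence.  Nodes are named `0, 1, 2, ...` in order of insertion (which is also the in-order).
Node `0` is always the root.  When node `t` is inserted, the last `2 ^ v - 1` nodes of the
rightmost path (`v` the 2-adic valuation of `t`) are left out of the anchored subtree, so they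
become the left subtree of `t`, a path; every other node of the rightmost path is in the anchored
subtree, together with its left child, if any.  So each node `t` releases exactly one node from
its left subtree in each of the next `2 ^ v - 1` flarbs, and every such release changes a pointer.
-/

namespace Pool.Agent.Results.MP_5c307f_lc.FlarbLowerBound

/-! ## The definitions of the problem -/

/-- Finite binary trees; every node carries a name (a natural number). -/
inductive BT : Type
  | nil : BT
  | node : BT → ℕ → BT → BT

namespace BT

/-- The names of the nodes, in in-order. -/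
def inorder : BT → List ℕ
  | nil => []
  | node l v r => l.inorder ++ v :: r.inorder

/-- The name of the root, if there is one. -/
def root? : BT → Option ℕ
  | nil => none
  | node _ v _ => some v

/-- The parent/left-child relationships: all pairs `(parent, its left child)`. -/
def leftRel : BT → Finset (ℕ × ℕ)
  | nil => ∅
  | node l v r => (l.root?.toFinset.image fun u => (v, u)) ∪ (l.leftRel ∪ r.leftRel)

/-- The parent/right-child relationships: all pairs `(parent, its right child)`. -/
def rightRel : BT → Finset (ℕ × ℕ)
  | nil => ∅
  | node l v r => (r.root?.toFinset.image fun u => (v, u)) ∪ (l.rightRel ∪ r.rightRel)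

/-- The path that starts at the root and always goes from a node to its right child. -/
def rightPath : BT → List ℕ
  | nil => []
  | node _ v r => v :: r.rightPath

/-- The subtrees (possibly empty ones) hanging off the node set `S`, from left to right. -/
def hanging (S : Finset ℕ) : BT → List BT
  | nil => [nil]
  | node l v r => if v ∈ S then l.hanging S ++ r.hanging S else [node l v r]

end BT

open BT

/-- `S` is an anchored subtree of `T`: a set of nodes of `T` that contains the root of `T` (if `T`
is not empty) and is connected, i.e. contains the parent of each of its nodes other than the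
root. -/
def IsAnchored (T : BT) (S : Finset ℕ) : Prop :=
  (∀ v ∈ S, v ∈ T.inorder) ∧ (∀ v, T.root? = some v → v ∈ S) ∧
    ∀ u v, (u, v) ∈ T.leftRel ∪ T.rightRel → v ∈ S → u ∈ S

/-- `U` is the flarb of the anchored subtree `S` of `T`, the new node being named `r`: with
`T' = node T r nil` and `S' = insert r S`, the tree `U` has the in-order of `T'`, its rightmost
path has node set `S'`, and the subtrees hanging off `S'` are the same in `U` as in `T'`. -/
def IsFlarb (T : BT) (S : Finset ℕ) (r : ℕ) (U : BT) : Prop :=
  r ∉ T.inorder ∧ IsAnchored T S ∧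
    U.inorder = (node T r nil).inorder ∧
    U.rightPath.toFinset = insert r S ∧
    U.hanging (insert r S) = (node T r nil).hanging (insert r S)

/-- The number of parent/left-child and parent/right-child relationships that change when `T` is
turned into `U`. -/
def cost (T U : BT) : ℕ :=
  (symmDiff T.leftRel U.leftRel).card + (symmDiff T.rightRel U.rightRel).card

/-- A sequence of `n` flarbs starting from the empty tree. -/
structure FlarbSeq (n : ℕ) where
  /-- the trees `T 0, ..., T n` -/
  T : ℕ → BT
  /-- the anchored subtrees chosen -/
  S : ℕ → Finset ℕ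
  /-- the names of the new nodes -/
  r : ℕ → ℕ
  start : T 0 = nil
  step : ∀ i < n, IsFlarb (T i) (S i) (r i) (T (i + 1))

/-- The total cost of a sequence of `n` flarbs. -/
def FlarbSeq.totalCost {n : ℕ} (F : FlarbSeq n) : ℕ :=
  ∑ i ∈ Finset.range n, cost (F.T i) (F.T (i + 1))

/-! ## Sanity check: the flarb of an anchored subtree is unique -/

theorem hanging_of_path (S : Finset ℕ) (U : BT) (hnd : U.inorder.Nodup)
    (h : U.rightPath.toFinset = S) : ∀ (V : BT), V.inorder = U.inorder →
      V.rightPath.toFinset = S → V.hanging S = U.hanging S → V = U := by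
  -- hanging of a tree all of whose left subtrees avoid `S`
  have key : ∀ (W : BT) (S : Finset ℕ), W.inorder.Nodup → (∀ v ∈ W.rightPath, v ∈ S) →
      (∀ v ∈ W.inorder, v ∈ S → v ∈ W.rightPath) →
      ∀ (V : BT), V.inorder = W.inorder → (∀ v ∈ V.rightPath, v ∈ S) →
      (∀ v ∈ V.inorder, v ∈ S → v ∈ V.rightPath) → V.hanging S = W.hanging S → V = W := by
    intro W
    induction W with
    | nil =>
      intro S _ _ _ V hV _ _ _
      cases V with
      | nil => rfl
      | node l v r => simp [inorder] at hV
    | node l v r _ ihr =>
      intro S hnd h1 h2 V hV h3 h4 h5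
      cases V with
      | nil => simp [inorder] at hV
      | node l' v' r' =>
        have hvS : v ∈ S := h1 v (by simp [rightPath])
        have hvS' : v' ∈ S := h3 v' (by simp [rightPath])
        have hnd' : (node l' v' r').inorder.Nodup := by rw [hV]; exact hnd
        -- left subtrees avoid `S`
        have mem_path : ∀ (X : BT) (x : ℕ), x ∈ X.rightPath → x ∈ X.inorder := by
          intro X
          induction X with
          | nil => intro x hx; simp [rightPath] at hx
          | node a b c _ ihc =>
            intro x hx
            simp only [rightPath, List.mem_cons] at hx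
            simp only [inorder, List.mem_append, List.mem_cons]
            rcases hx with hx | hx
            · exact Or.inr (Or.inl hx)
            · exact Or.inr (Or.inr (ihc x hx))
        have hl : ∀ x ∈ l.inorder, x ∉ S := by
          intro x hx hxS
          have hx2 := h2 x (by simp [inorder, hx]) hxS
          simp only [rightPath, List.mem_cons] at hx2
          simp only [inorder, List.nodup_append, List.nodup_cons] at hnd
          rcases hx2 with hx2 | hx2
          · exact hnd.2.2 x hx v (by simp) hx2
          · exact hnd.2.2 x hx x (by simp [mem_path r x hx2]) rfl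
        have hl' : ∀ x ∈ l'.inorder, x ∉ S := by
          intro x hx hxS
          have hx2 := h4 x (by simp [inorder, hx]) hxS
          simp only [rightPath, List.mem_cons] at hx2
          simp only [inorder, List.nodup_append, List.nodup_cons] at hnd'
          rcases hx2 with hx2 | hx2
          · exact hnd'.2.2 x hx v' (by simp) hx2
          · exact hnd'.2.2 x hx x (by simp [mem_path r' x hx2]) rfl
        have hang_avoid : ∀ (X : BT), (∀ x ∈ X.inorder, x ∉ S) → X.hanging S = [X] := by
          intro X hX
          cases X with
          | nil => rfl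
          | node a b c =>
            have : b ∉ S := hX b (by simp [inorder])
            simp [hanging, this]
        simp only [hanging, hvS, hvS', if_true, hang_avoid l hl, hang_avoid l' hl',
          List.singleton_append, List.cons.injEq] at h5
        obtain ⟨rfl, h5⟩ := h5
        simp only [inorder, List.append_cancel_left_eq, List.cons.injEq] at hV
        obtain ⟨rfl, hV⟩ := hV
        simp only [inorder, List.nodup_append, List.nodup_cons] at hnd
        have := ihr S hnd.2.1.2 (fun x hx => h1 x (by simp [rightPath, hx]))
          (fun x hx hxS => by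
            have := h2 x (by simp [inorder, hx]) hxS
            simp only [rightPath, List.mem_cons] at this
            rcases this with this | this
            · subst this; exact absurd hx hnd.2.1.1
            · exact this) r' hV
          (fun x hx => h3 x (by simp [rightPath, hx]))
          (fun x hx hxS => by
            have := h4 x (by simp [inorder, hx]) hxS
            simp only [rightPath, List.mem_cons] at this
            rcases this with this | this
            · subst this; rw [hV] at hx; exact absurd hx hnd.2.1.1
            · exact this) h5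
        rw [this]
  intro V hV hVp hh
  refine key U S hnd ?_ ?_ V hV ?_ ?_ hh
  · intro v hv; rw [← h]; simpa using hv
  · intro v _ hv; rw [← h] at hv; simpa using hv
  · intro v hv; rw [← hVp]; simpa using hv
  · intro v _ hv; rw [← hVp] at hv; simpa using hv

/-- The flarb of an anchored subtree is unique (names being distinct). -/
theorem isFlarb_unique {T : BT} {S : Finset ℕ} {r : ℕ} {U V : BT} (hT : T.inorder.Nodup)
    (hU : IsFlarb T S r U) (hV : IsFlarb T S r V) : U = V := by
  obtain ⟨hr, _, h1, h2, h3⟩ := hU
  obtain ⟨_, _, h4, h5, h6⟩ := hV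
  refine hanging_of_path (insert r S) V ?_ h5 U (h1.trans h4.symm) h2 (h3.trans h6.symm)
  rw [h4]
  simp only [inorder, List.nodup_append]
  refine ⟨hT, by simp, ?_⟩
  intro a ha b hb
  simp only [List.mem_singleton] at hb
  subst hb
  intro hab
  exact hr (hab ▸ ha)

/-! ## Star lists -/

/-- A path to the right with the given names. -/
def chain : List ℕ → BT
  | [] => nil
  | u :: us => node nil u (chain us)

/-- The tree whose rightmost path has the nodes `p.2`, with left subtree the path `p.1`. -/
def spine : List (List ℕ × ℕ) → BT
  | [] => nil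
  | p :: L => node (chain p.1) p.2 (spine L)

/-- The childless stars with the given names. -/
def sing (B : List ℕ) : List (List ℕ × ℕ) := B.map fun v => ([], v)

/-- All names, in in-order. -/
def names (L : List (List ℕ × ℕ)) : List ℕ := L.flatMap fun p => p.1 ++ [p.2]

/-- The names of the nodes in the left subtrees. -/
def rest (L : List (List ℕ × ℕ)) : List ℕ := L.flatMap fun p => p.1

/-- Release one node. -/
def relOne : List ℕ × ℕ → List (List ℕ × ℕ)
  | ([], v) => [([], v)]
  | (u :: us, v) => [([], u), (us, v)]

/-- Release one node from every left subtree. -/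
def rel (L : List (List ℕ × ℕ)) : List (List ℕ × ℕ) := L.flatMap relOne

/-- The number of nonempty left subtrees. -/
def act : List (List ℕ × ℕ) → ℕ
  | [] => 0
  | p :: L => (if p.1 = [] then 0 else 1) + act L

theorem names_append (L M) : names (L ++ M) = names L ++ names M := by
  simp [names]

theorem rest_append (L M) : rest (L ++ M) = rest L ++ rest M := by
  simp [rest]

theorem rel_append (L M) : rel (L ++ M) = rel L ++ rel M := by
  simp [rel]

theorem act_append (L M) : act (L ++ M) = act L + act M := by
  induction L with
  | nil => simp [act]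
  | cons p L ih => simp only [List.cons_append, act, ih]; omega

theorem sing_append (A B) : sing (A ++ B) = sing A ++ sing B := by
  simp [sing]

theorem names_sing (B : List ℕ) : names (sing B) = B := by
  induction B with
  | nil => rfl
  | cons b B ih =>
    have : names (sing (b :: B)) = b :: names (sing B) := by simp [names, sing]
    rw [this, ih]

theorem rest_sing (B : List ℕ) : rest (sing B) = [] := by
  simp [rest, sing, List.flatMap_map]

theorem rel_sing (B : List ℕ) : rel (sing B) = sing B := by
  induction B with
  | nil => rfl
  | cons b B ih =>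
    have : rel (sing (b :: B)) = ([], b) :: rel (sing B) := by simp [rel, sing, relOne]
    rw [this, ih]; simp [sing]

theorem act_sing (B : List ℕ) : act (sing B) = 0 := by
  induction B with
  | nil => rfl
  | cons b B ih =>
    have : act (sing (b :: B)) = act (sing B) := by simp [sing, act]
    rw [this, ih]

theorem names_relOne (p : List ℕ × ℕ) : names (relOne p) = p.1 ++ [p.2] := by
  obtain ⟨us, v⟩ := p
  cases us with
  | nil => simp [relOne, names]
  | cons u us => simp [relOne, names]

theorem names_rel (L) : names (rel L) = names L := by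
  induction L with
  | nil => rfl
  | cons p L ih =>
    have : rel (p :: L) = relOne p ++ rel L := by simp [rel]
    rw [this, names_append, ih, names_relOne]
    simp [names]

theorem rel_ne_nil {L : List (List ℕ × ℕ)} (h : L ≠ []) : rel L ≠ [] := by
  cases L with
  | nil => exact absurd rfl h
  | cons p L =>
    obtain ⟨us, v⟩ := p
    cases us <;> simp [rel, relOne]

theorem rel_iterate_append (i : ℕ) (L M) :
    rel^[i] (L ++ M) = rel^[i] L ++ rel^[i] M := by
  induction i generalizing L M with
  | zero => rfl
  | succ i ih => rw [Function.iterate_succ_apply, rel_append, ih]; rfl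

theorem rel_iterate_ne_nil (i : ℕ) {L : List (List ℕ × ℕ)} (h : L ≠ []) : rel^[i] L ≠ [] := by
  induction i generalizing L with
  | zero => exact h
  | succ i ih => rw [Function.iterate_succ_apply]; exact ih (rel_ne_nil h)

theorem rel_iterate_sing (i : ℕ) (B : List ℕ) : rel^[i] (sing B) = sing B := by
  induction i with
  | zero => rfl
  | succ i ih => rw [Function.iterate_succ_apply, rel_sing, ih]

theorem rel_iterate_star (i : ℕ) (B : List ℕ) (v : ℕ) :
    rel^[i] [(B, v)] = sing (B.take i) ++ [(B.drop i, v)] := by
  induction i generalizing B with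
  | zero => simp [sing]
  | succ i ih =>
    rw [Function.iterate_succ_apply]
    cases B with
    | nil =>
      have : rel [([], v)] = sing [v] := by simp [rel, relOne, sing]
      rw [this, rel_iterate_sing]
      simp [sing]
    | cons b B =>
      have : rel [(b :: B, v)] = sing [b] ++ [(B, v)] := by simp [rel, relOne, sing]
      rw [this, rel_iterate_append, rel_iterate_sing, ih]
      simp [sing]

theorem inorder_chain (us : List ℕ) : (chain us).inorder = us := by
  induction us with
  | nil => rfl
  | cons u us ih => simp [chain, inorder, ih]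

theorem inorder_spine (L) : (spine L).inorder = names L := by
  induction L with
  | nil => rfl
  | cons p L ih => simp [spine, inorder, ih, inorder_chain, names]

theorem rightPath_spine (L) : (spine L).rightPath = L.map Prod.snd := by
  induction L with
  | nil => rfl
  | cons p L ih => simp [spine, rightPath, ih]

theorem spine_sing (B : List ℕ) : spine (sing B) = chain B := by
  induction B with
  | nil => rfl
  | cons b B ih =>
    have : spine (sing (b :: B)) = node nil b (spine (sing B)) := by simp [sing, spine, chain]
    rw [this, ih]; rfl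

theorem perm_names (L : List (List ℕ × ℕ)) :
    (names L).Perm (L.map Prod.snd ++ rest L) := by
  induction L with
  | nil => simp [names, rest]
  | cons p L ih =>
    have h1 : names (p :: L) = p.1 ++ ([p.2] ++ names L) := by simp [names]
    have h2 : rest (p :: L) = p.1 ++ rest L := by simp [rest]
    rw [h1, h2]
    have h3 : (p.1 ++ ([p.2] ++ names L)).Perm ([p.2] ++ (p.1 ++ names L)) := by
      rw [← List.append_assoc, ← List.append_assoc]
      exact List.Perm.append_right _ List.perm_append_comm
    refine h3.trans ?_
    simp only [List.map_cons, List.cons_append]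
    refine List.Perm.cons _ ?_
    refine (List.Perm.append_left p.1 ih).trans ?_
    rw [← List.append_assoc, ← List.append_assoc]
    exact List.Perm.append_right _ List.perm_append_comm

theorem root_notMem_rest {L : List (List ℕ × ℕ)} (h : (names L).Nodup) {x : ℕ}
    (hx : x ∈ L.map Prod.snd) : x ∉ rest L := by
  have h2 := (perm_names L).nodup_iff.mp h
  rw [List.nodup_append] at h2
  intro hx'
  exact h2.2.2 x hx x hx' rfl

/-! ## Relations in a spine -/

theorem leftRel_chain (us : List ℕ) : (chain us).leftRel = ∅ := by
  induction us with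
  | nil => rfl
  | cons u us ih => simp [chain, leftRel, root?, ih]

theorem rightRel_chain {us : List ℕ} {a b : ℕ} (h : (a, b) ∈ (chain us).rightRel) :
    b ∈ us.tail := by
  induction us with
  | nil => simp [chain, rightRel] at h
  | cons u us ih =>
    simp only [chain, rightRel, Finset.mem_union, Finset.mem_image, Finset.notMem_empty,
      false_or] at h
    rcases h with ⟨w, hw, hw2⟩ | h
    · simp only [Prod.mk.injEq] at hw2
      obtain ⟨_, rfl⟩ := hw2
      cases us with
      | nil => simp [chain, root?] at hw
      | cons u' us => simp [chain, root?] at hw; simp [hw]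
    · have := ih h
      exact List.mem_of_mem_tail this

/-- the pair (star centre, first child) -/
def fpair (p : List ℕ × ℕ) : Option (ℕ × ℕ) := p.1.head?.map fun u => (p.2, u)

theorem leftRel_spine (L : List (List ℕ × ℕ)) :
    (spine L).leftRel = (L.filterMap fpair).toFinset := by
  induction L with
  | nil => rfl
  | cons p L ih =>
    obtain ⟨us, v⟩ := p
    simp only [spine, leftRel, leftRel_chain, ih, Finset.empty_union]
    cases us with
    | nil =>
      have h1 : fpair (([] : List ℕ), v) = none := rfl
      rw [List.filterMap_cons_none h1]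
      simp [chain, root?]
    | cons u us =>
      have h1 : fpair (u :: us, v) = some (v, u) := rfl
      rw [List.filterMap_cons_some h1]
      simp [chain, root?]

theorem act_eq (L : List (List ℕ × ℕ)) : (L.filterMap fpair).length = act L := by
  induction L with
  | nil => rfl
  | cons p L ih =>
    obtain ⟨us, v⟩ := p
    cases us with
    | nil =>
      have h1 : fpair (([] : List ℕ), v) = none := rfl
      rw [List.filterMap_cons_none h1, ih]
      simp [act]
    | cons u us =>
      have h1 : fpair (u :: us, v) = some (v, u) := rfl
      rw [List.filterMap_cons_some h1, List.length_cons, ih]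
      simp [act]; omega

theorem fpair_nodup {L : List (List ℕ × ℕ)} (h : (names L).Nodup) :
    (L.filterMap fpair).Nodup := by
  have h2 := (perm_names L).nodup_iff.mp h
  rw [List.nodup_append] at h2
  have h3 : ((L.filterMap fpair).map Prod.fst).Sublist (L.map Prod.snd) := by
    clear h h2
    induction L with
    | nil => simp
    | cons p L ih =>
      obtain ⟨us, v⟩ := p
      cases us with
      | nil =>
        have h1 : fpair (([] : List ℕ), v) = none := rfl
        rw [List.filterMap_cons_none h1, List.map_cons]
        exact List.Sublist.cons _ ih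
      | cons u us =>
        have h1 : fpair (u :: us, v) = some (v, u) := rfl
        rw [List.filterMap_cons_some h1, List.map_cons, List.map_cons]
        exact List.Sublist.cons_cons _ ih
  exact List.Nodup.of_map _ (h2.1.sublist h3)

theorem parent_closed (S : Finset ℕ) (B : List ℕ) (hB : ∀ b ∈ B, b ∉ S) :
    ∀ A : List (List ℕ × ℕ), (∀ p ∈ A, p.2 ∈ S ∧ ∀ w ∈ p.1.tail, w ∉ S) →
      ∀ a b, (a, b) ∈ (spine (A ++ sing B)).leftRel ∪ (spine (A ++ sing B)).rightRel →
        b ∈ S → a ∈ S := by
  intro A
  induction A with
  | nil =>
    intro _ a b h hb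
    rw [List.nil_append, spine_sing, leftRel_chain, Finset.empty_union] at h
    exact absurd hb (hB b (List.mem_of_mem_tail (rightRel_chain h)))
  | cons p A ih =>
    intro hA a b h hb
    have ih' := ih (fun q hq => hA q (List.mem_cons_of_mem _ hq)) a b
    obtain ⟨hp1, hp2⟩ := hA p (List.mem_cons_self ..)
    simp only [List.cons_append, spine, leftRel, rightRel, leftRel_chain, Finset.mem_union,
      Finset.mem_image, Finset.notMem_empty, false_or, Prod.mk.injEq] at h ih'
    rcases h with (⟨w, _, rfl, _⟩ | h) | (⟨w, _, rfl, _⟩ | h | h)
    · exact hp1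
    · exact ih' (Or.inl h) hb
    · exact hp1
    · exact absurd hb (hp2 b (rightRel_chain h))
    · exact ih' (Or.inr h) hb

/-! ## Hanging subtrees in a spine -/

theorem hanging_chain {S : Finset ℕ} {us : List ℕ} (h : ∀ w ∈ us, w ∉ S) :
    (chain us).hanging S = [chain us] := by
  cases us with
  | nil => rfl
  | cons u us =>
    have : u ∉ S := h u (List.mem_cons_self ..)
    simp [chain, hanging, this]

/-- the subtrees hanging off after one release -/
def hlist (A : List (List ℕ × ℕ)) : List BT :=
  A.flatMap fun p => match p.1 with
    | [] => [nil]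
    | _ :: us => [nil, chain us]

theorem hanging_before (S : Finset ℕ) (R : List (List ℕ × ℕ)) :
    ∀ A : List (List ℕ × ℕ),
      (∀ p ∈ A, p.2 ∈ S ∧ (∀ u ∈ p.1.head?, u ∈ S) ∧ ∀ w ∈ p.1.tail, w ∉ S) →
      (spine (A ++ R)).hanging S = hlist A ++ (spine R).hanging S := by
  intro A
  induction A with
  | nil => intro _; simp [hlist]
  | cons p A ih =>
    intro hA
    have ih' := ih (fun q hq => hA q (List.mem_cons_of_mem _ hq))
    obtain ⟨hp1, hp2, hp3⟩ := hA p (List.mem_cons_self ..)
    obtain ⟨us, v⟩ := p
    simp only at hp1 hp2 hp3
    have hh : hlist ((us, v) :: A) = (chain us).hanging S ++ hlist A := by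
      cases us with
      | nil => simp [hlist, chain, hanging]
      | cons u us =>
        have hu : u ∈ S := hp2 u (by simp)
        have : (chain us).hanging S = [chain us] := hanging_chain (by simpa using hp3)
        simp [hlist, chain, hanging, hu, this]
    rw [hh]
    simp only [List.cons_append, spine, hanging, hp1, if_true, ih', List.append_assoc]

theorem hanging_after (S : Finset ℕ) (R : List (List ℕ × ℕ)) :
    ∀ A : List (List ℕ × ℕ),
      (∀ p ∈ A, p.2 ∈ S ∧ (∀ u ∈ p.1.head?, u ∈ S) ∧ ∀ w ∈ p.1.tail, w ∉ S) →
      (spine (rel A ++ R)).hanging S = hlist A ++ (spine R).hanging S := by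
  intro A
  induction A with
  | nil => intro _; simp [hlist, rel]
  | cons p A ih =>
    intro hA
    have ih' := ih (fun q hq => hA q (List.mem_cons_of_mem _ hq))
    obtain ⟨hp1, hp2, hp3⟩ := hA p (List.mem_cons_self ..)
    obtain ⟨us, v⟩ := p
    simp only at hp1 hp2 hp3
    cases us with
    | nil =>
      have h1 : rel (([], v) :: A) ++ R = ([], v) :: (rel A ++ R) := by simp [rel, relOne]
      have h2 : hlist (([], v) :: A) = nil :: hlist A := by simp [hlist]
      rw [h1, h2]
      simp only [spine, hanging, hp1, if_true, ih', chain]
      simp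
    | cons u us =>
      have h1 : rel ((u :: us, v) :: A) ++ R = ([], u) :: (us, v) :: (rel A ++ R) := by
        simp [rel, relOne]
      have h2 : hlist ((u :: us, v) :: A) = nil :: chain us :: hlist A := by simp [hlist]
      have hu : u ∈ S := hp2 u (by simp)
      have h3 : (chain us).hanging S = [chain us] := hanging_chain (by simpa using hp3)
      rw [h1, h2]
      simp only [spine, hanging, hp1, hu, if_true, ih', h3, chain]
      simp

/-! ## One flarb -/

theorem mem_roots_rel {A : List (List ℕ × ℕ)} {p : List ℕ × ℕ} (hp : p ∈ A) :
    p.2 ∈ (rel A).map Prod.snd := by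
  rw [List.mem_map]
  obtain ⟨us, v⟩ := p
  cases us with
  | nil => exact ⟨([], v), List.mem_flatMap.mpr ⟨_, hp, by simp [relOne]⟩, rfl⟩
  | cons u us => exact ⟨(us, v), List.mem_flatMap.mpr ⟨_, hp, by simp [relOne]⟩, rfl⟩

theorem head_mem_roots_rel {A : List (List ℕ × ℕ)} {p : List ℕ × ℕ} (hp : p ∈ A) {u : ℕ}
    (hu : u ∈ p.1.head?) : u ∈ (rel A).map Prod.snd := by
  rw [List.mem_map]
  obtain ⟨us, v⟩ := p
  cases us with
  | nil => simp at hu
  | cons u' us =>
    simp at hu
    subst hu
    exact ⟨([], u'), List.mem_flatMap.mpr ⟨_, hp, by simp [relOne]⟩, rfl⟩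

theorem tail_mem_rest_rel {A : List (List ℕ × ℕ)} {p : List ℕ × ℕ} (hp : p ∈ A) {w : ℕ}
    (hw : w ∈ p.1.tail) : w ∈ rest (rel A) := by
  obtain ⟨us, v⟩ := p
  cases us with
  | nil => simp at hw
  | cons u' us =>
    refine List.mem_flatMap.mpr ⟨(us, v), List.mem_flatMap.mpr ⟨_, hp, by simp [relOne]⟩, ?_⟩
    simpa using hw

theorem rel_snd_mem_inorder {A : List (List ℕ × ℕ)} {x : ℕ}
    (hx : x ∈ (rel A).map Prod.snd) : x ∈ names A := by
  rw [← names_rel]
  have := (perm_names (rel A)).mem_iff (a := x)
  rw [this]
  exact List.mem_append_left _ hx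

theorem exists_right_to_last (B : List ℕ) (r : ℕ) :
    ∀ L : List (List ℕ × ℕ), L ≠ [] → ∃ w, (w, r) ∈ (spine (L ++ [(B, r)])).rightRel := by
  intro L
  induction L with
  | nil => intro h; exact absurd rfl h
  | cons p L ih =>
    intro _
    cases L with
    | nil => exact ⟨p.2, by simp [spine, rightRel, root?]⟩
    | cons q L =>
      obtain ⟨w, hw⟩ := ih (by simp)
      refine ⟨w, ?_⟩
      simp only [List.cons_append, spine, rightRel, Finset.mem_union] at hw ⊢
      exact Or.inr (Or.inr hw)

theorem rightRel_mem_inorder (T : BT) {a b : ℕ} (h : (a, b) ∈ T.rightRel) : b ∈ T.inorder := by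
  induction T with
  | nil => simp [rightRel] at h
  | node l v r ihl ihr =>
    simp only [rightRel, Finset.mem_union, Finset.mem_image] at h
    simp only [inorder, List.mem_append, List.mem_cons]
    rcases h with ⟨w, hw, hw2⟩ | h | h
    · simp only [Prod.mk.injEq] at hw2
      obtain ⟨_, rfl⟩ := hw2
      cases r with
      | nil => simp [root?] at hw
      | node a b c => simp [root?] at hw; subst hw; right; right; simp [inorder]
    · exact Or.inl (ihl h)
    · exact Or.inr (Or.inr (ihr h))

/-- The basic step: the stars in `A` release one node each, the childless stars `B` become the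
left subtree of the new node. -/
theorem flarb_step {A : List (List ℕ × ℕ)} {B : List ℕ} {r : ℕ} (hA : A ≠ [])
    (hnd : (names (A ++ sing B) ++ [r]).Nodup) :
    IsFlarb (spine (A ++ sing B)) ((rel A).map Prod.snd).toFinset r
        (spine (rel A ++ [(B, r)])) ∧
      act A + 1 ≤ cost (spine (A ++ sing B)) (spine (rel A ++ [(B, r)])) := by
  have hnamesU : names (rel A ++ [(B, r)]) = names (A ++ sing B) ++ [r] := by
    rw [names_append, names_append, names_rel, names_sing]
    simp [names]
  have hndU : (names (rel A ++ [(B, r)])).Nodup := by rw [hnamesU]; exact hnd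
  have hnd' := hnd
  rw [List.nodup_append] at hnd'
  have hr : r ∉ names (A ++ sing B) := fun h => hnd'.2.2 r h r (by simp) rfl
  -- non-membership facts
  have hrest : ∀ x ∈ rest (rel A ++ [(B, r)]), x ∉ insert r ((rel A).map Prod.snd).toFinset := by
    intro x hx hx'
    rw [Finset.mem_insert, List.mem_toFinset] at hx'
    refine root_notMem_rest hndU ?_ hx
    rw [List.map_append, List.mem_append]
    rcases hx' with rfl | hx'
    · right; simp
    · left; exact hx'
  have hBn : ∀ b ∈ B, b ∉ insert r ((rel A).map Prod.snd).toFinset := by
    intro b hb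
    apply hrest
    rw [rest_append, List.mem_append]
    right; simpa [rest] using hb
  have htail : ∀ p ∈ A, ∀ w ∈ p.1.tail, w ∉ insert r ((rel A).map Prod.snd).toFinset := by
    intro p hp w hw
    apply hrest
    rw [rest_append, List.mem_append]
    left; exact tail_mem_rest_rel hp hw
  have hgood : ∀ p ∈ A, p.2 ∈ insert r ((rel A).map Prod.snd).toFinset ∧
      (∀ u ∈ p.1.head?, u ∈ insert r ((rel A).map Prod.snd).toFinset) ∧
      ∀ w ∈ p.1.tail, w ∉ insert r ((rel A).map Prod.snd).toFinset := by
    intro p hp
    refine ⟨?_, ?_, htail p hp⟩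
    · exact Finset.mem_insert_of_mem (List.mem_toFinset.mpr (mem_roots_rel hp))
    · intro u hu
      exact Finset.mem_insert_of_mem (List.mem_toFinset.mpr (head_mem_roots_rel hp hu))
  refine ⟨⟨?_, ⟨?_, ?_, ?_⟩, ?_, ?_, ?_⟩, ?_⟩
  · rw [inorder_spine]; exact hr
  · intro v hv
    rw [inorder_spine, names_append]
    rw [List.mem_toFinset] at hv
    exact List.mem_append_left _ (rel_snd_mem_inorder hv)
  · intro v hv
    cases A with
    | nil => exact absurd rfl hA
    | cons p A =>
      simp only [List.cons_append, spine, root?, Option.some.injEq] at hv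
      subst hv
      exact List.mem_toFinset.mpr (mem_roots_rel (List.mem_cons_self ..))
  · refine parent_closed _ B (fun b hb h => hBn b hb (Finset.mem_insert_of_mem h)) A ?_
    intro p hp
    exact ⟨List.mem_toFinset.mpr (mem_roots_rel hp),
      fun w hw h => htail p hp w hw (Finset.mem_insert_of_mem h)⟩
  · rw [inorder_spine, hnamesU]
    simp [inorder, inorder_spine]
  · rw [rightPath_spine, List.map_append, List.toFinset_append]
    ext x
    simp only [List.map_cons, List.map_nil, Finset.mem_union, List.mem_toFinset,
      List.mem_singleton, Finset.mem_insert]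
    tauto
  · rw [hanging_after _ _ A hgood]
    have h1 : (node (spine (A ++ sing B)) r nil).hanging
        (insert r ((rel A).map Prod.snd).toFinset) =
        (spine (A ++ sing B)).hanging (insert r ((rel A).map Prod.snd).toFinset) ++ [nil] := by
      simp [hanging]
    rw [h1, hanging_before _ _ A hgood, spine_sing, hanging_chain hBn, List.append_assoc]
    have h2 : (spine [(B, r)]).hanging (insert r ((rel A).map Prod.snd).toFinset) =
        (chain B).hanging (insert r ((rel A).map Prod.snd).toFinset) ++ [nil] := by
      simp [spine, hanging]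
    rw [h2, hanging_chain hBn]
  · unfold cost
    have hL : act A ≤ (symmDiff (spine (A ++ sing B)).leftRel
        (spine (rel A ++ [(B, r)])).leftRel).card := by
      have hndA : (names A).Nodup := by
        have := hnd'.1
        rw [names_append, List.nodup_append] at this
        exact this.1
      rw [← act_eq, ← List.toFinset_card_of_nodup (fpair_nodup hndA)]
      apply Finset.card_le_card
      intro q hq
      rw [List.mem_toFinset] at hq
      rw [Finset.mem_symmDiff]
      left
      rw [leftRel_spine, leftRel_spine, List.mem_toFinset, List.mem_toFinset]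
      constructor
      · rw [List.filterMap_append]
        exact List.mem_append_left _ hq
      · intro hq'
        obtain ⟨v, u⟩ := q
        rw [List.mem_filterMap] at hq hq'
        obtain ⟨p, hp, hpq⟩ := hq
        obtain ⟨p', hp', hpq'⟩ := hq'
        have hu : u ∈ p.1.head? := by
          unfold fpair at hpq
          rw [Option.map_eq_some_iff] at hpq
          obtain ⟨a, ha, ha2⟩ := hpq
          simp only [Prod.mk.injEq] at ha2
          rw [← ha2.2]; exact ha
        have hu' : u ∈ p'.1 := by
          unfold fpair at hpq'
          rw [Option.map_eq_some_iff] at hpq'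
          obtain ⟨a, ha, ha2⟩ := hpq'
          simp only [Prod.mk.injEq] at ha2
          rw [← ha2.2]; exact List.mem_of_mem_head? ha
        refine hrest u (List.mem_flatMap.mpr ⟨p', hp', hu'⟩) ?_
        exact Finset.mem_insert_of_mem (List.mem_toFinset.mpr (head_mem_roots_rel hp hu))
    have hR : 1 ≤ (symmDiff (spine (A ++ sing B)).rightRel
        (spine (rel A ++ [(B, r)])).rightRel).card := by
      rw [Nat.one_le_iff_ne_zero, ← Nat.pos_iff_ne_zero, Finset.card_pos]
      obtain ⟨w, hw⟩ := exists_right_to_last B r (rel A) (rel_ne_nil hA)
      refine ⟨(w, r), ?_⟩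
      rw [Finset.mem_symmDiff]
      right
      refine ⟨hw, ?_⟩
      intro h
      have := rightRel_mem_inorder _ h
      rw [inorder_spine] at this
      exact hr this
    omega

/-! ## The sequence -/

/-- `Reach t L c`: after `t` flarbs we can be in the state `L`, at total cost at least `c`. -/
inductive Reach : ℕ → List (List ℕ × ℕ) → ℕ → Prop
  | init : Reach 1 [([], 0)] 0
  | step {t : ℕ} {A : List (List ℕ × ℕ)} {B : List ℕ} {c : ℕ} :
      Reach t (A ++ sing B) c → A ≠ [] → Reach (t + 1) (rel A ++ [(B, t)]) (c + act A + 1)

theorem Reach.names {t L c} (h : Reach t L c) : FlarbLowerBound.names L = List.range t := by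
  induction h with
  | init => rfl
  | @step t A B c _ _ ih =>
    rw [names_append, names_sing] at ih
    rw [names_append, names_rel, List.range_succ, ← ih]
    simp [FlarbLowerBound.names]

/-- extend a sequence of flarbs by one more -/
theorem FlarbSeq.extend {n : ℕ} (F : FlarbSeq n) {S : Finset ℕ} {r : ℕ} {U : BT}
    (h : IsFlarb (F.T n) S r U) :
    ∃ G : FlarbSeq (n + 1), G.T (n + 1) = U ∧
      G.totalCost = F.totalCost + cost (F.T n) U := by
  refine ⟨⟨fun i => if i ≤ n then F.T i else U, fun i => if i < n then F.S i else S,
    fun i => if i < n then F.r i else r, ?_, ?_⟩, ?_, ?_⟩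
  · simp [F.start]
  · intro i hi
    by_cases hin : i < n
    · have h1 : i ≤ n := by omega
      have h2 : i + 1 ≤ n := by omega
      simp only [h1, h2, hin, if_true]
      exact F.step i hin
    · have h1 : i = n := by omega
      subst h1
      simpa using h
  · simp
  · unfold FlarbSeq.totalCost
    rw [Finset.sum_range_succ]
    congr 1
    · apply Finset.sum_congr rfl
      intro i hi
      rw [Finset.mem_range] at hi
      have h1 : i ≤ n := by omega
      have h2 : i + 1 ≤ n := by omega
      simp [h1, h2]
    · simp

theorem Reach.seq {t L c} (h : Reach t L c) :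
    ∃ F : FlarbSeq t, F.T t = spine L ∧ c ≤ F.totalCost := by
  induction h with
  | init =>
    let F0 : FlarbSeq 0 := ⟨fun _ => nil, fun _ => ∅, fun _ => 0, rfl, fun i hi => by omega⟩
    have h0 : IsFlarb (F0.T 0) ∅ 0 (node nil 0 nil) := by
      refine ⟨by simp [F0, inorder], ⟨by simp, ?_, by simp⟩, ?_, ?_, ?_⟩
      · intro v hv; simp [F0, root?] at hv
      · simp [F0, inorder]
      · simp [rightPath]
      · simp [F0]
    obtain ⟨G, hG, _⟩ := F0.extend h0
    exact ⟨G, hG, Nat.zero_le _⟩
  | @step t A B c hR hA ih =>
    obtain ⟨F, hF, hc⟩ := ih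
    have hn := hR.names
    have hnd : (FlarbLowerBound.names (A ++ sing B) ++ [t]).Nodup := by
      rw [hn, ← List.range_succ]; exact List.nodup_range
    obtain ⟨h1, h2⟩ := flarb_step (r := t) hA hnd
    rw [← hF] at h1 h2
    obtain ⟨G, hG, hG2⟩ := F.extend h1
    exact ⟨G, hG, by omega⟩

/-- the extra cost of a phase -/
def ecost : ℕ → ℕ
  | 0 => 0
  | k + 1 => 2 * ecost k + (2 ^ k - 1)

theorem ecost_eq (k : ℕ) : 2 * ecost k + 2 * 2 ^ k = k * 2 ^ k + 2 := by
  induction k with
  | zero => simp [ecost]
  | succ k ih =>
    have h1 : 1 ≤ 2 ^ k := Nat.one_le_two_pow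
    simp only [ecost, pow_succ]
    have : (k + 1) * (2 ^ k * 2) = 2 * (k * 2 ^ k) + 2 * 2 ^ k := by ring
    rw [this]
    omega

theorem phase (k : ℕ) : ∀ (t : ℕ) (A : List (List ℕ × ℕ)) (c : ℕ), A ≠ [] → Reach t A c →
    Reach (t + (2 ^ k - 1)) (rel^[2 ^ k - 1] A ++ sing (List.range' t (2 ^ k - 1)))
      (c + (∑ i ∈ Finset.range (2 ^ k - 1), (act (rel^[i] A) + 1)) + ecost k) := by
  induction k with
  | zero => intro t A c _ h; simpa [ecost, sing] using h
  | succ k ih =>
    intro t A c hA h
    obtain ⟨m, hm⟩ : ∃ m, m = 2 ^ k - 1 := ⟨_, rfl⟩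
    have h1 : 1 ≤ 2 ^ k := Nat.one_le_two_pow
    have hm2 : 2 ^ (k + 1) - 1 = m + 1 + m := by rw [pow_succ]; omega
    rw [hm2]
    have p1 := ih t A c hA h
    rw [← hm] at p1
    have p2 := Reach.step p1 (rel_iterate_ne_nil m hA)
    have hne : rel (rel^[m] A) ++ [(List.range' t m, t + m)] ≠ [] := by simp
    have p3 := ih _ _ _ hne p2
    rw [← hm] at p3
    have e1 : rel (rel^[m] A) = rel^[m + 1] A := by rw [Function.iterate_succ_apply']
    have e2 : ∀ i, rel^[i] (rel (rel^[m] A) ++ [(List.range' t m, t + m)]) =
        rel^[m + 1 + i] A ++ (sing ((List.range' t m).take i) ++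
          [((List.range' t m).drop i, t + m)]) := by
      intro i
      rw [rel_iterate_append, rel_iterate_star, e1, ← Function.iterate_add_apply]
      rw [show i + (m + 1) = m + 1 + i by omega]
    have e3 : ∀ i < m, act (rel^[i] (rel (rel^[m] A) ++ [(List.range' t m, t + m)])) =
        act (rel^[m + 1 + i] A) + 1 := by
      intro i hi
      rw [e2, act_append, act_append, act_sing]
      have : (List.range' t m).drop i ≠ [] := by
        intro hnil
        have := congrArg List.length hnil
        simp at this
        omega
      have e : ∀ (M : List ℕ) (v : ℕ), M ≠ [] → act [(M, v)] = 1 := by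
        intro M v hM; simp [act, hM]
      rw [e _ _ this]
    have e4 : rel^[m] (rel (rel^[m] A) ++ [(List.range' t m, t + m)]) ++
        sing (List.range' (t + m + 1) m) =
        rel^[m + 1 + m] A ++ sing (List.range' t (m + 1 + m)) := by
      rw [e2, List.append_assoc]
      congr 1
      have h5 : (List.range' t m).take m = List.range' t m := by
        rw [List.take_of_length_le]; simp
      have h6 : (List.range' t m).drop m = [] := by
        rw [List.drop_eq_nil_iff]; simp
      rw [h5, h6]
      have h7 : List.range' t (m + 1 + m) =
          List.range' t m ++ ([t + m] ++ List.range' (t + m + 1) m) := by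
        rw [show m + 1 + m = m + (m + 1) by omega, ← List.range'_append_1,
          List.range'_succ]
        rfl
      rw [h7, sing_append, sing_append]
      simp [sing]
    rw [e4] at p3
    have e5 : t + m + 1 + m = t + (m + 1 + m) := by omega
    rw [e5] at p3
    have e6 : (c + (∑ i ∈ Finset.range m, (act (rel^[i] A) + 1)) + ecost k +
        act (rel^[m] A) + 1 +
        (∑ i ∈ Finset.range m,
          (act (rel^[i] (rel (rel^[m] A) ++ [(List.range' t m, t + m)])) + 1)) + ecost k) =
        c + (∑ i ∈ Finset.range (m + 1 + m), (act (rel^[i] A) + 1)) + ecost (k + 1) := by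
      rw [Finset.sum_range_add _ (m + 1) m, Finset.sum_range_succ _ m]
      have e7 : (∑ i ∈ Finset.range m,
          (act (rel^[i] (rel (rel^[m] A) ++ [(List.range' t m, t + m)])) + 1)) =
          (∑ i ∈ Finset.range m, (act (rel^[m + 1 + i] A) + 1)) + m := by
        rw [Finset.sum_congr rfl (g := fun i => (act (rel^[m + 1 + i] A) + 1) + 1)]
        · rw [Finset.sum_add_distrib (f := fun i => (act (rel^[m + 1 + i] A) + 1))]
          simp
        · intro i hi
          rw [Finset.mem_range] at hi
          rw [e3 i hi]
      rw [e7]
      simp only [ecost]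
      rw [← hm]
      omega
    rw [e6] at p3
    exact p3

theorem reach_two_pow (k : ℕ) : ∃ L c, L ≠ [] ∧ Reach (2 ^ k) L c ∧ 2 * c = k * 2 ^ k := by
  have h := phase k 1 [([], 0)] 0 (by simp) Reach.init
  have h1 : 1 ≤ 2 ^ k := Nat.one_le_two_pow
  have h2 : 1 + (2 ^ k - 1) = 2 ^ k := by omega
  rw [h2] at h
  refine ⟨_, _, ?_, h, ?_⟩
  · intro hnil
    rw [List.append_eq_nil_iff] at hnil
    exact rel_iterate_ne_nil _ (by simp) hnil.1
  · have h3 : ∀ i, act (rel^[i] [(([] : List ℕ), 0)]) = 0 := by
      intro i
      have : [(([] : List ℕ), 0)] = sing [0] := by simp [sing]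
      rw [this, rel_iterate_sing, act_sing]
    simp only [h3]
    have := ecost_eq k
    simp
    omega

theorem reach_add {t L c} (hL : L ≠ []) (h : Reach t L c) (j : ℕ) :
    ∃ L' c', L' ≠ [] ∧ Reach (t + j) L' c' ∧ c ≤ c' := by
  induction j with
  | zero => exact ⟨L, c, hL, h, le_refl _⟩
  | succ j ih =>
    obtain ⟨L', c', hL', h', hc⟩ := ih
    have h'' : Reach (t + j) (L' ++ sing []) c' := by simpa [sing] using h'
    exact ⟨_, _, by simp, Reach.step h'' hL', by omega⟩

/-- The lower bound. -/
theorem lower_bound (n : ℕ) : ∃ F : FlarbSeq n, n * Nat.log 2 n ≤ 4 * F.totalCost := by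
  rcases Nat.eq_zero_or_pos n with rfl | hn
  · exact ⟨⟨fun _ => nil, fun _ => ∅, fun _ => 0, rfl, fun i hi => by omega⟩, by simp⟩
  · obtain ⟨L, c, hL, h, hc⟩ := reach_two_pow (Nat.log 2 n)
    have h1 : 2 ^ Nat.log 2 n ≤ n := Nat.pow_log_le_self 2 hn.ne'
    have h2 : n < 2 ^ (Nat.log 2 n + 1) := Nat.lt_pow_succ_log_self (by norm_num) n
    obtain ⟨L', c', _, h', hc'⟩ := reach_add hL h (n - 2 ^ Nat.log 2 n)
    rw [show 2 ^ Nat.log 2 n + (n - 2 ^ Nat.log 2 n) = n by omega] at h'
    obtain ⟨F, _, hF⟩ := h'.seq
    refine ⟨F, ?_⟩
    have h3 : n * Nat.log 2 n ≤ 2 ^ (Nat.log 2 n + 1) * Nat.log 2 n :=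
      Nat.mul_le_mul_right _ h2.le
    have h4 : 2 ^ (Nat.log 2 n + 1) * Nat.log 2 n = 2 * (Nat.log 2 n * 2 ^ Nat.log 2 n) := by
      rw [pow_succ]; ring
    omega

/-- **Flarbs do not have constant amortized cost.**  For every `n` there is a sequence of `n`
flarbs from the empty tree whose total number of changed parent/child relationships is at least
`n * log2 n / 4`; so there is no absolute constant `C` such that every sequence of `n` flarbs from
the empty tree has total cost at most `C * n`. -/
theorem result :
    (∀ n : ℕ, ∃ F : FlarbSeq n, n * Nat.log 2 n ≤ 4 * F.totalCost) ∧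
      ¬ ∃ C : ℝ, ∀ (n : ℕ) (F : FlarbSeq n), (F.totalCost : ℝ) ≤ C * n := by
  refine ⟨lower_bound, ?_⟩
  rintro ⟨C, hC⟩
  obtain ⟨k, hk⟩ := exists_nat_gt (4 * C)
  obtain ⟨F, hF⟩ := lower_bound (2 ^ k)
  rw [Nat.log_pow (by norm_num)] at hF
  have h1 := hC (2 ^ k) F
  have h2 : ((2 ^ k * k : ℕ) : ℝ) ≤ ((4 * F.totalCost : ℕ) : ℝ) := by exact_mod_cast hF
  push_cast at h1 h2
  have h3 : (0 : ℝ) < 2 ^ k := by positivity
  nlinarith

end Pool.Agent.Results.MP_5c307f_lc.FlarbLowerBound
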